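import Pool.Agent.Results.MP_4a0cc8_nt.AllFieldsCongruences
import Pool.Agent.R559.NP.Rel2

/-!
# Pairs of invariants near a given point: no congruences modulo any prime `p ≥ 13`, over all number fields

Let `φ` be any map from the pairs of algebraic numbers to a metric space `X`, for example the inclusion in `ℂ²` or in
`ℂ_p × ℂ_q`, `N ≥ 13` (for example `N = 13`) and `τ > 0`.  For all `ξ ∈ X` outside a set of Hausdorff dimension at most
`(3 + 1 / N) / τ` and for ALL number fields `K`, for all but finitely many pairs `(j₀, j)` of elements of `K` with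
`dist (φ (j₀, j)) ξ ≤ κ max (H_K(j₀), H_K(j)) ^ (-τ)` NO elliptic curve over `K` of invariant `j₀` and NO elliptic curve over
`K` of invariant `j` have the same `p`-division field for any prime `p ≥ N`.
-/

set_option autoImplicit false

open NumberField

namespace Pool.Agent.Results.MP_f5d5f4_nt.AllPairsNearAPoint

open Pool.Agent.Results.MP_4a0cc8_nt.AllFieldsCongruences (Related)

/-- **Theorem.** Let `φ` be a map from the pairs of algebraic numbers to a metric space `X`, `N ≥ 13` and `τ > 0`.  There is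
`E ⊆ X` of Hausdorff dimension at most `(3 + 1 / N) / τ` such that for all `ξ ∈ X` outside `E`, all number fields `K` inside
the algebraic numbers and all `κ` there are only finitely many pairs `z = (j₀, j)` of elements of `K` with
`dist (φ z) ξ ≤ κ max (H_K(j₀), H_K(j)) ^ (-τ)`, `H_K` the height relative to `K`, such that some elliptic curves over `K`
with the invariants `j₀` and `j` have the same `p`-division field for some prime `p ≥ N`. -/
theorem result (X : Type) [MetricSpace X] (φ : AlgebraicClosure ℚ × AlgebraicClosure ℚ → X) (N : ℕ) (τ : ℝ)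
    (hN : 13 ≤ N) (hτ : 0 < τ) :
    ∃ E : Set X, dimH E ≤ ENNReal.ofReal ((3 + 1 / (N : ℝ)) / τ) ∧ ∀ ξ : X, ξ ∉ E →
      ∀ (K : IntermediateField ℚ (AlgebraicClosure ℚ)) [NumberField K] (κ : ℝ),
        {z : K × K | dist (φ ((z.1 : AlgebraicClosure ℚ), (z.2 : AlgebraicClosure ℚ))) ξ ≤
          κ * (max (Height.mulHeight₁ z.1) (Height.mulHeight₁ z.2)) ^ (-τ) ∧ Related N z.1 z.2}.Finite := by
  refine Pool.Agent.R559.NP.near_fields2 (X := X) (fun K _ z => Related N z.1 z.2)
    (s := 3 + 1 / (N : ℝ)) (τ := τ) (by positivity) hτ ?_ φ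
  intro K _ ε hε
  obtain ⟨C, hC, h⟩ := Pool.Agent.Results.MP_4a0cc8_nt.AllFieldsCongruences.result.2.2.1 N ε hN hε
  refine ⟨C, hC, fun B hB => ?_⟩
  have h2 := h K B hB
  have hset : {z : K × K | Related N z.1 z.2 ∧ Height.logHeight₁ z.1 ≤ Module.finrank ℚ K * Real.log B ∧
      Height.logHeight₁ z.2 ≤ Module.finrank ℚ K * Real.log B} =
      Pool.Agent.Results.MP_4a0cc8_nt.AllFieldsCongruences.RelPairs K N B := by
    ext z
    simp only [Pool.Agent.Results.MP_4a0cc8_nt.AllFieldsCongruences.RelPairs,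
      Pool.Agent.Results.MP_4a0cc8_nt.AllFieldsCongruences.Inv, Set.mem_ofPred_eq]
    tauto
  rw [hset]
  have hInv : (Pool.Agent.Results.MP_4a0cc8_nt.AllFieldsCongruences.Inv K B).Finite := by
    obtain ⟨C', hC', h'⟩ := Pool.Agent.Results.MP_4a0cc8_nt.AllFieldsCongruences.result.1 N ε hN hε
    exact (h' K 0 B hB).1
  exact ⟨(hInv.prod hInv).subset fun z hz => ⟨hz.1, hz.2.1⟩, h2⟩

end Pool.Agent.Results.MP_f5d5f4_nt.AllPairsNearAPoint
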