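import Pool.Agent.R559.NP.Fam
import Pool.Agent.R559.NP.Near2

/-!
# Members of a family near a given point are not congruent to any curve of small height modulo large primes

Let `φ` be any map from the pairs of rational numbers to a metric space `X`; it may depend only on the first number, and be
for example the inclusion in `ℝ` or in `ℚ_l`.  For all `ξ ∈ X` outside a set of Hausdorff dimension zero and all `τ > 0`
there is `δ > 0` such that for all rational functions `F / G` over `ℚ` with at least two different poles there is `N` such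
that for every `κ`, for all but finitely many rational numbers `t` with `dist (φ (t, j₀)) ξ ≤ κ H(t) ^ (-τ)`, NO elliptic
curve over `ℚ` with invariant `F(t) / G(t)` has the same `p`-division field as ANY elliptic curve over `ℚ` whose invariant
`j₀` has height at most `H(t) ^ δ`, for any prime `p ≥ N`.
-/

set_option autoImplicit false

open Polynomial Filter Topology
open scoped Classical

namespace Pool.Agent.Results.MP_f5d5f4_nt.CompanionsNearAPoint

open UniformInFamilies (TwoPoles)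
open Pool.Agent.R559.NP.Fam (Related ht Par)

/-- **Theorem.** Let `φ` be a map from `ℚ × ℚ` to a metric space `X`.  There is `E ⊆ X` of Hausdorff dimension zero such
that for all `ξ ∈ X` outside `E` and all `τ > 0` there is `δ > 0` such that for all coprime polynomials `F`, `G ≠ 0` over
`ℚ`, such that `F / G` has at least two different poles on the projective line over the algebraic numbers, there is `N`
such that for every `κ` there are only finitely many pairs `z = (t, j₀)` of rational numbers with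
`dist (φ z) ξ ≤ κ H(t) ^ (-τ)`, `H(j₀) ≤ H(t) ^ δ` and `G(t) ≠ 0` such that for some prime `p ≥ N` an elliptic curve over
`ℚ` with invariant `F(t) / G(t)` and an elliptic curve over `ℚ` with invariant `j₀` have the same `p`-division field. -/
theorem result (X : Type) [MetricSpace X] (φ : ℚ × ℚ → X) :
    ∃ E : Set X, dimH E = 0 ∧ ∀ ξ : X, ξ ∉ E → ∀ τ : ℝ, 0 < τ → ∃ δ : ℝ, 0 < δ ∧
      ∀ F G : ℚ[X], IsCoprime F G → G ≠ 0 → TwoPoles ℚ F G → ∃ N : ℕ, ∀ κ : ℝ,
        {z : ℚ × ℚ | dist (φ z) ξ ≤ κ * (ht z.1 : ℝ) ^ (-τ) ∧ (ht z.2 : ℝ) ≤ (ht z.1 : ℝ) ^ δ ∧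
          G.eval z.1 ≠ 0 ∧ Related N (F.eval z.1 / G.eval z.1) z.2}.Finite := by
  have hfew := fun (j : ℕ) (y : Par) => Pool.Agent.R559.NP.Fam.few_pairs y.1.1 y.1.2 y.2.1 y.2.2.1 y.2.2.2
    (1 / ((j : ℝ) + 1)) (by positivity)
  choose N C hC h using hfew
  obtain ⟨E, hE, hE'⟩ := Pool.Agent.R559.NP.near_zero_fam (T := ℚ × ℚ) (X := X) (Y := Par)
    (H := fun z => (ht z.1 : ℝ)) (fun z => Pool.Agent.R559.NP.Fam.one_le_ht _)
    (Bad := fun j y z => (ht z.2 : ℝ) ≤ (ht z.1 : ℝ) ^ (1 / ((j : ℝ) + 1)) ∧ y.1.2.eval z.1 ≠ 0 ∧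
      Related (N j y) (y.1.1.eval z.1 / y.1.2.eval z.1) z.2)
    (s := fun j => 3 * (1 / ((j : ℝ) + 1)) + (1 / ((j : ℝ) + 1)) * (1 / ((j : ℝ) + 1)))
    (fun j => by positivity)
    (by
      have h0 := tendsto_one_div_add_atTop_nhds_zero_nat (𝕜 := ℝ)
      have h1 := (h0.const_mul 3).add (h0.mul h0)
      simpa using h1)
    (by
      intro j y ε hε
      refine ⟨C j y, fun B hB => ?_⟩
      have hB0 : 0 < B := by linarith
      set e : ℝ := 1 / ((j : ℝ) + 1) with he
      have he0 : 0 < e := by positivity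
      have hB' : 1 ≤ B ^ e := Real.one_le_rpow hB he0.le
      obtain ⟨h1, h2⟩ := h j y B (B ^ e) hB hB'
      have hsub : {z : ℚ × ℚ | ((ht z.2 : ℝ) ≤ (ht z.1 : ℝ) ^ e ∧ y.1.2.eval z.1 ≠ 0 ∧
          Related (N j y) (y.1.1.eval z.1 / y.1.2.eval z.1) z.2) ∧ (ht z.1 : ℝ) ≤ B} ⊆
          {z : ℚ × ℚ | (ht z.1 : ℝ) ≤ B ∧ (ht z.2 : ℝ) ≤ B ^ e ∧ y.1.2.eval z.1 ≠ 0 ∧
            Related (N j y) (y.1.1.eval z.1 / y.1.2.eval z.1) z.2} := by
        rintro z ⟨⟨g0, g1, g2⟩, g3⟩
        exact ⟨g3, g0.trans (Real.rpow_le_rpow (by positivity) g3 he0.le), g1, g2⟩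
      refine ⟨h1.subset hsub, ?_⟩
      have h3 := Set.ncard_le_ncard hsub h1
      refine le_trans (by exact_mod_cast h3) (h2.trans ?_)
      have e1 : (B * B ^ e) ^ e * (B ^ e) ^ 2 = B ^ (3 * e + e * e) := by
        have e2 : B * B ^ e = B ^ (1 + e) := by
          rw [Real.rpow_add hB0, Real.rpow_one]
        rw [e2, ← Real.rpow_natCast (B ^ e) 2, ← Real.rpow_mul hB0.le, ← Real.rpow_mul hB0.le,
          ← Real.rpow_add hB0]
        congr 1
        push_cast
        ring
      rw [← he, mul_assoc, e1]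
      refine mul_le_mul_of_nonneg_left ?_ (hC j y).le
      exact Real.rpow_le_rpow_of_exponent_le hB (by linarith))
    (fun _ => φ)
  refine ⟨E, hE, fun ξ hξ τ hτ => ?_⟩
  obtain ⟨j, hj⟩ := hE' ξ hξ τ hτ
  exact ⟨1 / ((j : ℝ) + 1), by positivity, fun F G hFG hG hP =>
    ⟨N j ⟨(F, G), hFG, hG, hP⟩, fun κ => hj ⟨(F, G), hFG, hG, hP⟩ κ⟩⟩

end Pool.Agent.Results.MP_f5d5f4_nt.CompanionsNearAPoint
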