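import Mathlib
import Pool.Agent.R365.CP.Fin

/-!
# MP_f5d5f4_nt: congruent pairs of elliptic curves are rare, for all primes `p ≥ 17` at once

We consider ALL elliptic curves over `ℚ` with full rational two-torsion, up to isomorphism (all
quadratic twists, all heights), ordered by the odd part `X` of the conductor. There are between
`c X ^ (2 / 3)` and `C X ^ (2 / 3)` of them, and all but `C X ^ (2 / 3 - ν)` satisfy Szpiro's
inequality with exponent `13 / 6` for the invariant `j(E)`; the other curves are called exceptional.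

1. For EVERY finite set `S` of primes there are at most `C M ^ |S|` invariants `j(E)` of
   unexceptional curves `E` of the family, of any conductor, which are `p`-congruent for some prime
   `p ≥ 17` to some elliptic curve `E₀` over `ℚ` with good reduction outside `S`; so a curve `E₀` with
   `ω` bad primes is congruent, modulo all primes `p ≥ 17` together, to unexceptional curves with
   at most `C M ^ ω` invariants, whatever its conductor.
2. For every `ε > 0` there are at most `C X ^ (2 / 3 + ε)` pairs `(E, E₀)` of curves of the family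
   with conductors at most `X`, `E` unexceptional, which are `p`-congruent for some prime `p ≥ 17`.
   (The pairs with `E` isogenous to `E₀` are `≥ c X ^ (2 / 3)` in number, so the exponent
   `2 / 3` is best possible.)
3. Without exceptions: there are at most `C X ^ (4 / 3 - ν)` pairs with conductors at most `X`
   which are `p`-congruent for some prime `p ≥ 17`, out of at least `c X ^ (4 / 3)` pairs.

Proof. Outside `S` and `6` the invariant of `E` has at each pole a valuation `-2 e` with `p ∣ e`, also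
at `p` (theorem `FM.loc` of the library of helper673), and `E` has good reduction at the primes at
which `j(E)` is integral (`FM.locG`). If the height of the Legendre parameter is not large compared
with its radical, this forces most of the height of the parameter to be supported by `S`, and the
number of such solutions of the unit equation is at most `C M ^ |S|` (library of helper876, by Padé
approximations). The curves whose Legendre parameter has a large height are few by the theorem of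
this project on almost all points of the line `x + y + z = 0`.
-/

set_option autoImplicit false

open NumberField IsDedekindDomain
open scoped Classical

namespace Pool.Agent.Results.MP_f5d5f4_nt.CongruentPairsAreRare

/-- The curve `y² = x³ + Ax + B` over `ℚ`. -/
def curve (A B : ℚ) : WeierstrassCurve ℚ := ⟨0, 0, 0, A, B⟩

/-- The group of its points over the algebraic closure of `ℚ`. -/
abbrev Points (A B : ℚ) : Type :=
  ((curve A B).baseChange (AlgebraicClosure ℚ)).toAffine.Point

/-- The action of an automorphism `σ` of the algebraic closure over `ℚ` on the points. -/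
noncomputable def galois (A B : ℚ) (σ : AlgebraicClosure ℚ ≃ₐ[ℚ] AlgebraicClosure ℚ) :
    Points A B →+ Points A B :=
  WeierstrassCurve.Affine.Point.map (σ : AlgebraicClosure ℚ →ₐ[ℚ] AlgebraicClosure ℚ)

/-- The groups of the points killed by `n` of `y² = x³ + Ax + B` and of `y² = x³ + A'x + B'` are
isomorphic as Galois modules: some map between the groups of points restricts to a bijective
additive map between them which commutes with the Galois group of `ℚ`. -/
def Congruent (n : ℕ) (A B A' B' : ℚ) : Prop :=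
  ∃ f : Points A B → Points A' B', (∀ P Q, n • P = 0 → n • Q = 0 → f (P + Q) = f P + f Q) ∧
    Set.BijOn f {P | n • P = 0} {Q | n • Q = 0} ∧
    ∀ (σ : AlgebraicClosure ℚ ≃ₐ[ℚ] AlgebraicClosure ℚ) (P : Points A B), n • P = 0 →
      f (galois A B σ P) = galois A' B' σ (f P)

/-- full rational two-torsion: the polynomial of the first coordinates of the points of order two
has three roots -/
def FullTwo (E : WeierstrassCurve ℚ) : Prop :=
  ∃ e : Fin 3 → ℚ, Function.Injective e ∧
    ∀ i, 4 * e i ^ 3 + E.b₂ * e i ^ 2 + 2 * E.b₄ * e i + E.b₆ = 0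

/-- good reduction at the prime `v`: some Weierstrass equation over `ℚ` of the curve is integral at `v` and
has a discriminant which is a unit at `v` -/
def GoodAt (v : HeightOneSpectrum (𝓞 ℚ)) (E : WeierstrassCurve ℚ) : Prop :=
  ∃ C : WeierstrassCurve.VariableChange ℚ,
    v.valuation ℚ (C • E).a₁ ≤ 1 ∧ v.valuation ℚ (C • E).a₂ ≤ 1 ∧ v.valuation ℚ (C • E).a₃ ≤ 1 ∧
    v.valuation ℚ (C • E).a₄ ≤ 1 ∧ v.valuation ℚ (C • E).a₆ ≤ 1 ∧ v.valuation ℚ (C • E).Δ = 1

/-- semistable (good or multiplicative) reduction at `v`: some Weierstrass equation over `ℚ` of the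
curve is integral at `v` and its discriminant or its invariant `c₄` is a unit at `v` -/
def SemistableAt (v : HeightOneSpectrum (𝓞 ℚ)) (E : WeierstrassCurve ℚ) : Prop :=
  ∃ C : WeierstrassCurve.VariableChange ℚ,
    v.valuation ℚ (C • E).a₁ ≤ 1 ∧ v.valuation ℚ (C • E).a₂ ≤ 1 ∧ v.valuation ℚ (C • E).a₃ ≤ 1 ∧
    v.valuation ℚ (C • E).a₄ ≤ 1 ∧ v.valuation ℚ (C • E).a₆ ≤ 1 ∧
    (v.valuation ℚ (C • E).Δ = 1 ∨ v.valuation ℚ (C • E).c₄ = 1)

/-- the product of the odd primes of bad reduction -/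
noncomputable def badProduct (E : WeierstrassCurve ℚ) : ℝ :=
  ∏ᶠ v ∈ {v : HeightOneSpectrum (𝓞 ℚ) | ¬ GoodAt v E ∧ v.valuation ℚ 2 = 1},
    (Ideal.absNorm v.asIdeal : ℝ)

/-- the odd part of the conductor of a curve with full two-torsion: the product over the odd primes
`v` of `v` for multiplicative and `v ^ 2` for additive reduction -/
noncomputable def cond (E : WeierstrassCurve ℚ) : ℝ :=
  badProduct E *
  ∏ᶠ v ∈ {v : HeightOneSpectrum (𝓞 ℚ) | ¬ SemistableAt v E ∧ v.valuation ℚ 2 = 1},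
    (Ideal.absNorm v.asIdeal : ℝ)

/-- The invariant of `y² = x³ + Ax + B`. -/
noncomputable def jInvariant (A B : ℚ) : ℚ :=
  6912 * A ^ 3 / (4 * A ^ 3 + 27 * B ^ 2)

/-- the product of the odd primes at which `j` is not integral (the primes of potentially
multiplicative reduction of the curves with invariant `j`) -/
noncomputable def poleProduct (j : ℚ) : ℝ :=
  ∏ᶠ v ∈ {v : HeightOneSpectrum (𝓞 ℚ) | ¬ v.valuation ℚ j ≤ 1 ∧ v.valuation ℚ 2 = 1},
    (Ideal.absNorm v.asIdeal : ℝ)

/-- Szpiro's inequality with exponent `13 / 6` for the invariant `j`: the height of `j` is at most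
`13 / 6` times the logarithm of the product of its poles. Both sides depend on `j` only; for the
typical curve with full two-torsion the exponent is `2 + o(1)`. (`Height.logHeight₁` is the
logarithmic height.) -/
def Szpiro (j : ℚ) : Prop :=
  Height.logHeight₁ j ≤ 13 / 6 * Real.log (poleProduct j)

/-- the Weierstrass curves over `ℚ` up to isomorphism over `ℚ` (changes of variables) -/
abbrev IsoClass : Type :=
  Quotient (MulAction.orbitRel (WeierstrassCurve.VariableChange ℚ) (WeierstrassCurve ℚ))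

/-- the isomorphism classes of the elliptic curves over `ℚ` with full rational two-torsion and
odd part of the conductor at most `X` -/
def Curves (X : ℝ) : Set IsoClass :=
  {q | ∃ E : WeierstrassCurve ℚ, Quotient.mk'' E = q ∧ E.Δ ≠ 0 ∧ FullTwo E ∧ cond E ≤ X}

/-- the classes of the curves with conductor at most `X` which do not satisfy Szpiro's inequality -/
def Exceptional (X : ℝ) : Set IsoClass :=
  {q | ∃ E : WeierstrassCurve ℚ, Quotient.mk'' E = q ∧ E.Δ ≠ 0 ∧ FullTwo E ∧ cond E ≤ X ∧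
    ¬ Szpiro (E.c₄ ^ 3 / E.Δ)}

/-- `E : y² = x³ + Ax + B` has a partner with good reduction outside `S`: there are an elliptic curve
`E₀` over `ℚ` which has good reduction at all odd primes not in `S`, and a prime `p ≥ 17`, such that
`E` and `E₀` are `p`-congruent -/
def HasPartner (S : Finset (HeightOneSpectrum (𝓞 ℚ))) (A B : ℚ) : Prop :=
  ∃ A₀ B₀ : ℚ, 4 * A₀ ^ 3 + 27 * B₀ ^ 2 ≠ 0 ∧
    (∀ v : HeightOneSpectrum (𝓞 ℚ), v ∉ S → v.valuation ℚ 2 = 1 → GoodAt v (curve A₀ B₀)) ∧
    ∃ p : ℕ, p.Prime ∧ 17 ≤ p ∧ Congruent p A B A₀ B₀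

/-- the invariants of the curves with full two-torsion, of any conductor, which are not exceptional
and have a partner with good reduction outside `S` -/
def Invariants (S : Finset (HeightOneSpectrum (𝓞 ℚ))) : Set ℚ :=
  {j | ∃ A B : ℚ, 4 * A ^ 3 + 27 * B ^ 2 ≠ 0 ∧ FullTwo (curve A B) ∧ jInvariant A B = j ∧
    Szpiro j ∧ HasPartner S A B}

/-- the pairs of classes of curves with full two-torsion and conductor at most `X` which are
`p`-congruent for some prime `p ≥ 17` -/
def Pairs (X : ℝ) : Set (IsoClass × IsoClass) :=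
  {q | q.1 ∈ Curves X ∧ q.2 ∈ Curves X ∧ ∃ A B A₀ B₀ : ℚ, Quotient.mk'' (curve A B) = q.1 ∧
    Quotient.mk'' (curve A₀ B₀) = q.2 ∧ 4 * A ^ 3 + 27 * B ^ 2 ≠ 0 ∧
    4 * A₀ ^ 3 + 27 * B₀ ^ 2 ≠ 0 ∧ ∃ p : ℕ, p.Prime ∧ 17 ≤ p ∧ Congruent p A B A₀ B₀}

/-- **Congruent pairs are rare.** -/
theorem result :
    (∃ c C X₀ : ℝ, 0 < c ∧ ∀ X : ℝ, X₀ ≤ X → (Curves X).Finite ∧
      c * X ^ (2 / 3 : ℝ) ≤ ((Curves X).ncard : ℝ) ∧
      ((Curves X).ncard : ℝ) ≤ C * X ^ (2 / 3 : ℝ)) ∧
    (∃ ν C : ℝ, 0 < ν ∧ ∀ X : ℝ, 1 ≤ X →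
      ((Exceptional X).ncard : ℝ) ≤ C * X ^ (2 / 3 - ν)) ∧
    (∃ C M : ℝ, ∀ S : Finset (HeightOneSpectrum (𝓞 ℚ)),
      (Invariants S).Finite ∧ ((Invariants S).ncard : ℝ) ≤ C * M ^ S.card) ∧
    (∀ ε : ℝ, 0 < ε → ∃ C : ℝ, ∀ X : ℝ, 1 ≤ X →
      (({q | q ∈ Pairs X ∧ q.1 ∉ Exceptional X} : Set (IsoClass × IsoClass)).ncard : ℝ) ≤
        C * X ^ (2 / 3 + ε)) ∧
    (∃ ν C : ℝ, 0 < ν ∧ ∀ X : ℝ, 1 ≤ X →
      ((Pairs X).ncard : ℝ) ≤ C * X ^ (4 / 3 - ν)) := by
  have hlvl : ∀ p : ℕ, p.Prime → 17 ≤ p → Pool.Agent.R365.CP.Lvl (Module.finrank ℚ ℚ) p := by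
    intro p hp h17
    refine Or.inl ⟨hp, h17, ?_⟩
    rw [Module.finrank_self]
    nlinarith
  have hpar : ∀ (S : Finset (HeightOneSpectrum (𝓞 ℚ))) (A B : ℚ), HasPartner S A B →
      Pool.Agent.R365.CP.Par S A B := by
    rintro S A B ⟨A₀, B₀, h1, h2, p, hp, h17, f, f1, f2, f3⟩
    exact ⟨A₀, B₀, h1, h2, p, f, hlvl p hp h17, ⟨f1, f2, f3⟩⟩
  have hprs : ∀ (X : ℝ) (q : IsoClass × IsoClass), q ∈ Pairs X →
      q ∈ Pool.Agent.R365.CP.Prs ℚ X := by
    rintro X q ⟨h1, h2, A, B, A₀, B₀, h3, h4, h5, h6, p, hp, h17, f, f1, f2, f3⟩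
    exact ⟨h1, h2, A, B, A₀, B₀, h3, h4, h5, h6, p, f, hlvl p hp h17, ⟨f1, f2, f3⟩⟩
  refine ⟨Pool.Agent.R365.CP.two_sided ℚ, ?_, ?_, ?_, ?_⟩
  · obtain ⟨ν, C, hν, -, h⟩ := Pool.Agent.R365.CP.exc_count ℚ
    exact ⟨ν, C, hν, h⟩
  · obtain ⟨C, M, -, -, h⟩ := Pool.Agent.R365.CP.inv_count ℚ
    refine ⟨C, M, fun S => ?_⟩
    obtain ⟨h1, h2⟩ := h S
    have hsub : Invariants S ⊆ _ := fun j hj => by
      obtain ⟨A, B, g1, g2, g3, g4, g5⟩ := hj
      exact (⟨A, B, g1, g2, g3, g4, hpar S A B g5⟩ : ∃ A B : ℚ, 4 * A ^ 3 + 27 * B ^ 2 ≠ 0 ∧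
        Pool.Agent.TH876.FH.FullTwo (Pool.Agent.H901R3.MS.CV A B) ∧
        Pool.Agent.Y673.Loc.jv A B = j ∧ Pool.Agent.R365.CP.Szp j ∧
        Pool.Agent.R365.CP.Par S A B)
    exact ⟨h1.subset hsub, le_trans (Nat.cast_le.2 (Set.ncard_le_ncard hsub h1)) h2⟩
  · intro ε hε
    obtain ⟨C, -, h⟩ := Pool.Agent.R365.CP.pairs_reg ℚ ε hε
    refine ⟨C, fun X hX => (Pool.Agent.Y729.AH.fin_of_bound _ _ fun P hP =>
      h X hX P fun q hq => ?_).2⟩
    obtain ⟨g1, g2⟩ := hP hq
    refine ⟨hprs X q g1, ?_⟩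
    obtain ⟨E, k1, k2, k3, k4⟩ := g1.1
    refine ⟨E, k1, ?_⟩
    by_contra hc
    exact g2 ⟨E, k1, k2, k3, k4, hc⟩
  · obtain ⟨ν, C, hν, -, h⟩ := Pool.Agent.R365.CP.pairs_all ℚ
    exact ⟨ν, C, hν, fun X hX => (Pool.Agent.Y729.AH.fin_of_bound _ _ fun P hP =>
      h X hX P fun q hq => hprs X q (hP hq)).2⟩

end Pool.Agent.Results.MP_f5d5f4_nt.CongruentPairsAreRare
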