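import Pool.Agent.R559.NP.Fam

/-!
# Pairs of elliptic curves near a given point are not congruent modulo large primes

Let `φ` be any map from the pairs of rational numbers to a metric space `X`, for example the inclusion in `ℝ × ℝ` or in
`ℚ_l × ℚ_l`, and `τ > 0`.  For all `ξ ∈ X` outside a set of Hausdorff dimension at most `2 / τ` and all rational functions
`F / G` over `ℚ` with at least two different poles there is `N` such that for every `κ`, for all but finitely many pairs of
rational numbers `(t, j₀)` with `dist (φ (t, j₀)) ξ ≤ κ max (H(t), H(j₀)) ^ (-τ)`, NO elliptic curve over `ℚ` with invariant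
`F(t) / G(t)` and NO elliptic curve over `ℚ` with invariant `j₀` have the same `p`-division field, for any prime `p ≥ N`.
-/

set_option autoImplicit false

open Polynomial Filter Topology
open scoped Classical

namespace Pool.Agent.Results.MP_f5d5f4_nt.PairsNearAPoint

open UniformInFamilies (TwoPoles)
open Pool.Agent.R559.NP.Fam (Related ht Par)

/-- **Theorem.** Let `φ` be a map from `ℚ × ℚ` to a metric space `X` and `τ > 0`.  There is `E ⊆ X` of Hausdorff dimension
at most `2 / τ` such that for all `ξ ∈ X` outside `E` and all coprime polynomials `F`, `G ≠ 0` over `ℚ`, such that `F / G`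
has at least two different poles on the projective line over the algebraic numbers, there is `N` such that for every `κ`
there are only finitely many pairs `z = (t, j₀)` of rational numbers with `dist (φ z) ξ ≤ κ max (H(t), H(j₀)) ^ (-τ)`
and `G(t) ≠ 0` such that for some prime `p ≥ N` an elliptic curve over `ℚ` with invariant `F(t) / G(t)` and an elliptic
curve over `ℚ` with invariant `j₀` have the same `p`-division field (in particular, such that they are `p`-congruent). -/
theorem result (X : Type) [MetricSpace X] (φ : ℚ × ℚ → X) (τ : ℝ) (hτ : 0 < τ) :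
    ∃ E : Set X, dimH E ≤ ENNReal.ofReal (2 / τ) ∧ ∀ ξ : X, ξ ∉ E →
      ∀ F G : ℚ[X], IsCoprime F G → G ≠ 0 → TwoPoles ℚ F G → ∃ N : ℕ, ∀ κ : ℝ,
        {z : ℚ × ℚ | dist (φ z) ξ ≤ κ * (max (ht z.1 : ℝ) (ht z.2 : ℝ)) ^ (-τ) ∧ G.eval z.1 ≠ 0 ∧
          Related N (F.eval z.1 / G.eval z.1) z.2}.Finite := by
  have hfew := fun (j : ℕ) (y : Par) => Pool.Agent.R559.NP.Fam.few_pairs y.1.1 y.1.2 y.2.1 y.2.2.1 y.2.2.2
    (1 / ((j : ℝ) + 1)) (by positivity)
  choose N C hC h using hfew
  obtain ⟨E, hE, hE'⟩ := Pool.Agent.R559.NP.near_lim_fam (T := ℚ × ℚ) (X := X) (Y := Par)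
    (H := fun z => max (ht z.1 : ℝ) (ht z.2 : ℝ))
    (fun z => le_max_of_le_left (Pool.Agent.R559.NP.Fam.one_le_ht _))
    (Bad := fun j y z => y.1.2.eval z.1 ≠ 0 ∧ Related (N j y) (y.1.1.eval z.1 / y.1.2.eval z.1) z.2)
    (s := fun j => 2 + 2 * (1 / ((j : ℝ) + 1))) (s₀ := 2) (fun j => by positivity)
    (by
      have h1 := (tendsto_one_div_add_atTop_nhds_zero_nat (𝕜 := ℝ)).const_mul 2
      have h2 := h1.const_add 2
      simpa using h2)
    (by
      intro j y ε hε
      refine ⟨C j y, fun B hB => ?_⟩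
      obtain ⟨h1, h2⟩ := h j y B B hB hB
      have hsub : {z : ℚ × ℚ | (y.1.2.eval z.1 ≠ 0 ∧
          Related (N j y) (y.1.1.eval z.1 / y.1.2.eval z.1) z.2) ∧ max (ht z.1 : ℝ) (ht z.2 : ℝ) ≤ B} ⊆
          {z : ℚ × ℚ | (ht z.1 : ℝ) ≤ B ∧ (ht z.2 : ℝ) ≤ B ∧ y.1.2.eval z.1 ≠ 0 ∧
            Related (N j y) (y.1.1.eval z.1 / y.1.2.eval z.1) z.2} := by
        rintro z ⟨⟨g1, g2⟩, g3⟩
        rw [max_le_iff] at g3
        exact ⟨g3.1, g3.2, g1, g2⟩
      refine ⟨h1.subset hsub, ?_⟩
      have h3 := Set.ncard_le_ncard hsub h1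
      refine le_trans (by exact_mod_cast h3) (h2.trans ?_)
      have hB0 : 0 < B := by linarith
      have e1 : (B * B) ^ (1 / ((j : ℝ) + 1)) * B ^ 2 = B ^ (2 + 2 * (1 / ((j : ℝ) + 1))) := by
        rw [← pow_two, ← Real.rpow_natCast B 2, ← Real.rpow_mul hB0.le, ← Real.rpow_add hB0]
        congr 1
        push_cast
        ring
      rw [mul_assoc, e1]
      refine mul_le_mul_of_nonneg_left ?_ (hC j y).le
      exact Real.rpow_le_rpow_of_exponent_le hB (by linarith))
    (fun _ => φ) hτ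
  refine ⟨E, hE, fun ξ hξ F G hFG hG hP => ?_⟩
  obtain ⟨j, hj⟩ := hE' ξ hξ
  exact ⟨N j ⟨(F, G), hFG, hG, hP⟩, fun κ => hj ⟨(F, G), hFG, hG, hP⟩ κ⟩

end Pool.Agent.Results.MP_f5d5f4_nt.PairsNearAPoint
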